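import Pool.Agent.Q274.LB.Exist

/-!
A countable torsion-free nilpotent group of class two which is not the multiplicative group of
any left brace (MP_790f3b_al, Q1: the answer is negative).

For a transcendental 2-adic integer `α` and `β = α ^ 3` the group consists of the triples
`(x, y, n)` of 2-adic integers with `(x, y)` in the pure subgroup generated by
`(1,0), (0,1), (α, β)`, with `n` in the pure subgroup generated by `1, α, β` and
`n ≡ x y mod 2`, and product `(x + x', y + y', n + n' + x y' - x' y)`.
-/

namespace Pool.Agent.Results.MP_790f3b_al.RigidClassTwo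

universe u

open scoped commutatorElement

/-- `(A, +, *)`, with `(A, +)` an abelian group and `(A, *)` a group, is a left brace. -/
def IsLeftBrace (A : Type u) [AddCommGroup A] [Group A] : Prop :=
  ∀ a b c : A, a * (b + c) = a * b - a + a * c

/-- `G` is the multiplicative group of a left brace (whose underlying set lies in `Type u`). -/
def IsBraceGroup (G : Type) [Group G] : Prop :=
  ∃ (A : Type u) (_ : AddCommGroup A) (_ : Group A), IsLeftBrace A ∧ Nonempty (G ≃* A)

open Pool.Agent.Q274.LB in
theorem countable_GG (α β : ℚ_[2]) : Countable (GG α β) := by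
  choose a b c h1 h2 using fun g : GG α β => g.2.1
  choose d e f h3 using fun g : GG α β => g.2.2.1
  have hinj : Function.Injective (fun g : GG α β => (a g, b g, c g, d g, e g, f g)) := by
    intro g h hgh
    simp only [Prod.mk.injEq] at hgh
    obtain ⟨ea, eb, ec, ed, ee, ef⟩ := hgh
    apply Subtype.ext
    ext
    · apply PadicInt.ext; rw [h1, h1, ea, ec]
    · apply PadicInt.ext; rw [h2, h2, eb, ec]
    · apply PadicInt.ext; rw [h3, h3, ed, ee, ef]
  exact hinj.countable

/-- **Theorem.** There is a countable, torsion-free, nilpotent group of class two which is not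
the multiplicative group of any left brace. -/
theorem result : ∃ (G : Type) (_ : Group G),
    Countable G ∧ (∀ (g : G) (n : ℤ), n ≠ 0 → g ^ n = 1 → g = 1) ∧
    (∃ g h : G, g * h ≠ h * g) ∧ commutator G ≤ Subgroup.center G ∧
    ¬ IsBraceGroup.{u} G := by
  obtain ⟨a, ha⟩ := Pool.Agent.Q274.LB.exists_params
  refine ⟨Pool.Agent.Q274.LB.GG (a : ℚ_[2]) ((a ^ 3 : ℤ_[2]) : ℚ_[2]), inferInstance,
    countable_GG _ _, fun g n hn h => Pool.Agent.Q274.LB.torsion_free g n hn h, ?_, ?_, ?_⟩
  · refine ⟨Pool.Agent.Q274.LB.g0, Pool.Agent.Q274.LB.h0, ?_⟩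
    intro h
    rw [Pool.Agent.Q274.LB.cm_spec, Pool.Agent.Q274.LB.cm_g0_h0] at h
    have h1 := mul_eq_right.mp h
    have h2 := congrArg (fun g : Pool.Agent.Q274.LB.GG (a : ℚ_[2]) ((a ^ 3 : ℤ_[2]) : ℚ_[2]) =>
      (g : Pool.Agent.Q274.LB.E3).n) h1
    have h3 : (2 : ℤ_[2]) * 1 = 0 := h2
    rw [mul_one] at h3
    exact Pool.Agent.Q274.LB.two_ne h3
  · rw [commutator_def, Subgroup.commutator_le]
    intro g _ h _
    rw [Subgroup.mem_center_iff]
    intro k
    have e : ⁅g, h⁆ = Pool.Agent.Q274.LB.cm g h := by
      rw [commutatorElement_def, mul_assoc, mul_assoc]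
      have := Pool.Agent.Q274.LB.cm_spec g h
      have h2 : Pool.Agent.Q274.LB.cm g h = g * h * (h * g)⁻¹ := by
        rw [this, mul_assoc, mul_inv_cancel, mul_one]
      rw [h2, mul_inv_rev, mul_assoc]
    rw [e]
    exact (Pool.Agent.Q274.LB.cc_comm _ _ k).symm
  · rintro ⟨A, iA, iG, hA, ⟨φ⟩⟩
    have hlam : ∀ x y z : A, -x + x * (y + z) = (-x + x * y) + (-x + x * z) := by
      intro x y z
      rw [hA]; abel
    let lam : A → Module.End ℤ A := fun x =>
      (AddMonoidHom.mk' (fun y => -x + x * y) (fun y z => hlam x y z)).toIntLinearMap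
    have hl : ∀ x y, lam x y = -x + x * y := fun x y => rfl
    have hone : (1 : A) = 0 := by
      have := hA 1 0 0
      rw [add_zero, one_mul, zero_sub, add_zero] at this
      exact neg_eq_zero.mp this.symm
    have hmul : ∀ x y, lam (x * y) = lam x * lam y := by
      intro x y
      apply LinearMap.ext
      intro z
      rw [Module.End.mul_apply, hl y, map_add, map_neg, hl, hl, hl, mul_assoc]
      abel
    let ρ : Pool.Agent.Q274.LB.GG (a : ℚ_[2]) ((a ^ 3 : ℤ_[2]) : ℚ_[2]) →* Module.End ℤ A :=
      { toFun := fun g => lam (φ g)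
        map_one' := by
          apply LinearMap.ext
          intro z
          rw [map_one, hl, one_mul, hone, neg_zero, zero_add, Module.End.one_apply]
        map_mul' := by
          intro g h
          rw [map_mul, hmul] }
    refine Pool.Agent.Q274.LB.no_cocycle a ha ρ (fun g => φ g) (fun g h => ?_) φ.bijective
    show φ (g * h) = φ g + lam (φ g) (φ h)
    rw [hl, map_mul]
    abel

end Pool.Agent.Results.MP_790f3b_al.RigidClassTwo
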